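import Pool.Agent.helper72.UP.Spec

/-! Row up:LYF (MP_7e34bc_co). -/

set_option autoImplicit false

namespace Pool.Agent.helper72.UP

open Finset

open Classical in
theorem LYF : LYF_stmt := by
  intro α _ y p q T hy hp hpq
  set A : ℝ → Finset (Finset α) := fun t => univ.filter (fun S : Finset α => ∑ i ∈ S, y i = t) with hA
  have hmem : ∀ t S, S ∈ A t ↔ ∑ i ∈ S, y i = t := by
    intro t S
    rw [hA]
    simp
  have hcnt : ∀ t, cnt y t = (A t).card := by
    intro t
    rfl
  have hanti : ∀ t, IsAntichain (· ⊆ ·) ((A t : Finset (Finset α)) : Set (Finset α)) := by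
    intro t S hS S' hS' hne hsub
    have h1 : ∑ i ∈ S, y i = t := (hmem t S).1 (mem_coe.1 hS)
    have h2 : ∑ i ∈ S', y i = t := (hmem t S').1 (mem_coe.1 hS')
    have hss : S ⊂ S' := Finset.ssubset_iff_subset_ne.2 ⟨hsub, hne⟩
    obtain ⟨a, ha, ha'⟩ := Finset.exists_of_ssubset hss
    have := Finset.sum_lt_sum_of_subset hsub ha ha' (hy a) (fun j _ _ => (hy j).le)
    linarith
  set Q : Finset ℝ := {T, T - p, T - q, T - p - q} with hQ
  have hQ4 : Q.card ≤ 4 := by
    rw [hQ]
    exact Finset.card_le_four
  have hsl : ∀ t, ∑ r ∈ range (Fintype.card α + 1), (Finset.slice (A t) r).card = (A t).card := by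
    intro t
    have h := Finset.sum_card_slice (A t)
    rw [← h]
    refine Finset.sum_congr ?_ (fun _ _ => rfl)
    ext r
    simp
  refine ⟨fun r => ∑ t ∈ Q, ((Finset.slice (A t) r).card : ℝ), ?_, ?_, ?_⟩
  · intro r _
    refine ⟨Finset.sum_nonneg (fun _ _ => Nat.cast_nonneg _), ?_⟩
    have hdis : ((Q : Finset ℝ) : Set ℝ).PairwiseDisjoint (fun t => Finset.slice (A t) r) := by
      intro t _ t' _ hne
      refine Finset.disjoint_left.2 ?_
      intro S hS hS'
      have h1 := (hmem t S).1 (Finset.mem_slice.1 hS).1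
      have h2 := (hmem t' S).1 (Finset.mem_slice.1 hS').1
      exact hne (h1.symm.trans h2)
    have h1 : ∑ t ∈ Q, (Finset.slice (A t) r).card = (Q.biUnion (fun t => Finset.slice (A t) r)).card :=
      (Finset.card_biUnion hdis).symm
    have h2 : (Q.biUnion (fun t => Finset.slice (A t) r)) ⊆ powersetCard r (univ : Finset α) := by
      intro S hS
      obtain ⟨t, _, hS⟩ := Finset.mem_biUnion.1 hS
      exact Finset.mem_powersetCard.2 ⟨Finset.subset_univ _, (Finset.mem_slice.1 hS).2⟩
    have h3 := Finset.card_le_card h2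
    rw [Finset.card_powersetCard, Finset.card_univ, ← h1] at h3
    show ∑ t ∈ Q, ((Finset.slice (A t) r).card : ℝ) ≤ ((Fintype.card α).choose r : ℝ)
    exact_mod_cast h3
  · calc ∑ r ∈ range (Fintype.card α + 1), (∑ t ∈ Q, ((Finset.slice (A t) r).card : ℝ)) / ((Fintype.card α).choose r : ℝ)
        = ∑ r ∈ range (Fintype.card α + 1), ∑ t ∈ Q, ((Finset.slice (A t) r).card : ℝ) / ((Fintype.card α).choose r : ℝ) :=
          Finset.sum_congr rfl (fun r _ => Finset.sum_div _ _ _)
      _ = ∑ t ∈ Q, ∑ r ∈ range (Fintype.card α + 1), ((Finset.slice (A t) r).card : ℝ) / ((Fintype.card α).choose r : ℝ) := Finset.sum_comm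
      _ ≤ ∑ t ∈ Q, (1 : ℝ) := Finset.sum_le_sum (fun t _ => Finset.lubell_yamamoto_meshalkin_inequality_sum_card_div_choose (hanti t))
      _ = (Q.card : ℝ) := by simp
      _ ≤ 4 := by exact_mod_cast hQ4
  · rw [Finset.sum_comm]
    have h1 : ∀ t ∈ Q, ∑ r ∈ range (Fintype.card α + 1), ((Finset.slice (A t) r).card : ℝ) = (cnt y t : ℝ) := by
      intro t _
      rw [hcnt, ← hsl t]
      push_cast
      rfl
    rw [Finset.sum_congr rfl h1, hQ]
    rw [Finset.sum_insert, Finset.sum_insert, Finset.sum_insert, Finset.sum_singleton]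
    · ring
    · rw [Finset.mem_singleton]
      intro h
      linarith
    · simp only [Finset.mem_insert, Finset.mem_singleton, not_or]
      constructor
      · intro h
        linarith
      · intro h
        linarith
    · simp only [Finset.mem_insert, Finset.mem_singleton, not_or]
      refine ⟨?_, ?_, ?_⟩
      · intro h
        linarith
      · intro h
        linarith
      · intro h
        linarith

end Pool.Agent.helper72.UP
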